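import Pool.Agent.WND.Defs

/-!
# WNE: the choice of the modulus
-/

set_option autoImplicit false

open Finset

namespace Pool.Agent.WNE

open Pool.Agent.WND

private theorem CHOU_eta (V : Set ℝ) (hV : IsOpen V)
    (hk : ¬ ∃ k : ℕ, 1 ≤ k ∧ ∀ x ∈ V, 1 / 4 ≤ distInt (k * x)) (M : ℕ) :
    ∃ η : ℝ, 0 < η ∧ ∀ k : ℕ, 1 ≤ k → k ≤ M →
      ∃ x ∈ V, distInt (k * x) ≤ 1 / 4 - η ∧ ∀ y, |y - x| < η → y ∈ V := by
  induction M with
  | zero =>
    refine ⟨1, one_pos, fun k h1 h2 => ?_⟩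
    omega
  | succ M ih =>
    obtain ⟨η, hη, h⟩ := ih
    have h1 : ¬ ∀ x ∈ V, 1 / 4 ≤ distInt (((M + 1 : ℕ) : ℝ) * x) := by
      intro h2
      exact hk ⟨M + 1, by omega, h2⟩
    push Not at h1
    obtain ⟨x, hx1, hx3⟩ := h1
    obtain ⟨ε, hε, hε2⟩ := Metric.isOpen_iff.1 hV x hx1
    have e3 : 0 < 1 / 4 - distInt (((M + 1 : ℕ) : ℝ) * x) := by linarith
    refine ⟨min η (min ε (1 / 4 - distInt (((M + 1 : ℕ) : ℝ) * x))),
      lt_min hη (lt_min hε e3), ?_⟩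
    intro k hk1 hk2
    have m1 : min η (min ε (1 / 4 - distInt (((M + 1 : ℕ) : ℝ) * x))) ≤ η :=
      min_le_left _ _
    have m2 : min η (min ε (1 / 4 - distInt (((M + 1 : ℕ) : ℝ) * x))) ≤
        min ε (1 / 4 - distInt (((M + 1 : ℕ) : ℝ) * x)) := min_le_right _ _
    rcases Nat.lt_or_ge k (M + 1) with h3 | h3
    · obtain ⟨y, hy1, hy2, hy3⟩ := h k hk1 (by omega)
      exact ⟨y, hy1, by linarith, fun z hz => hy3 z (lt_of_lt_of_le hz m1)⟩
    · have h4 : k = M + 1 := by omega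
      subst h4
      have m3 := m2.trans (min_le_left _ _)
      have m4 := m2.trans (min_le_right _ _)
      refine ⟨x, hx1, by linarith, fun z hz => hε2 ?_⟩
      rw [Metric.mem_ball, Real.dist_eq]
      exact lt_of_lt_of_le hz m3

/-- the choice of `q` -/
theorem choose_qU (V : Set ℝ) (hV : IsOpen V) (hV1 : V ⊆ Set.Ioo 0 1) (m : ℕ) (hm : 1 ≤ m)
    (s t : ℝ) (hs : 0 ≤ s) (hst : 2 * s < t)
    (hk : ¬ ∃ k : ℕ, 1 ≤ k ∧ ∀ x ∈ V, 1 / 4 ≤ distInt (k * x)) :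
    ∃ (K q : ℕ) (a b : ℤ), q = 2 * m * K + 1 ∧ 0 < a ∧ 2 * a + 3 ≤ b ∧
      s * q < a ∧ (b : ℝ) < t * q ∧
      ∀ k : ℤ, 1 ≤ k → k * b ≤ q →
        ∃ d : ℤ, 0 ≤ d ∧ d < q ∧ (d : ℝ) / q ∈ V ∧
          ∃ n : ℤ, 4 * |k * (m * d) - n * q| + 258 * k ^ 3 < q := by
  have ht0 : 0 < t := by linarith
  have hts : 0 < t - 2 * s := by linarith
  have hmR : (1 : ℝ) ≤ m := by exact_mod_cast hm
  obtain ⟨M, hM0⟩ := exists_nat_ge (2 / t)
  rw [div_le_iff₀ ht0] at hM0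
  obtain ⟨η, hη, hx⟩ := CHOU_eta V hV hk (M * m)
  obtain ⟨K1, hK1⟩ := exists_nat_ge ((2 + (M : ℝ) * m + 258 * (M : ℝ) ^ 3) / η)
  obtain ⟨K2, hK2⟩ := exists_nat_ge (10 / (t - 2 * s))
  obtain ⟨K3, hK3⟩ := exists_nat_ge (4 / t)
  rw [div_le_iff₀ hη] at hK1
  rw [div_le_iff₀ hts] at hK2
  rw [div_le_iff₀ ht0] at hK3
  obtain ⟨q, hqd⟩ : ∃ q : ℕ, q = 2 * m * (K1 + K2 + K3) + 1 := ⟨_, rfl⟩
  have hqS : K1 + K2 + K3 ≤ q := by
    rw [hqd]
    nlinarith [Nat.zero_le (K1 + K2 + K3)]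
  have hqK1 : (K1 : ℝ) ≤ q := by
    have : K1 ≤ q := by omega
    exact_mod_cast this
  have hqK2 : (K2 : ℝ) ≤ q := by
    have : K2 ≤ q := by omega
    exact_mod_cast this
  have hqK3 : (K3 : ℝ) ≤ q := by
    have : K3 ≤ q := by omega
    exact_mod_cast this
  have hq0 : (0 : ℝ) < q := by
    have : 0 < q := by rw [hqd]; positivity
    exact_mod_cast this
  have hη1 : 2 + (M : ℝ) * m + 258 * (M : ℝ) ^ 3 ≤ η * q := by nlinarith
  have hts1 : 10 ≤ (t - 2 * s) * q := by nlinarith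
  have ht1 : 4 ≤ t * q := by nlinarith
  have ha1 : s * q < ((⌊s * q⌋ + 1 : ℤ) : ℝ) := by
    push_cast
    exact Int.lt_floor_add_one _
  have ha2 : ((⌊s * q⌋ + 1 : ℤ) : ℝ) ≤ s * q + 1 := by
    push_cast
    linarith [Int.floor_le (s * q)]
  have hb1 : ((⌈t * q⌉ - 1 : ℤ) : ℝ) < t * q := by
    push_cast
    linarith [Int.ceil_lt_add_one (t * q)]
  have hb2 : t * q - 1 ≤ ((⌈t * q⌉ - 1 : ℤ) : ℝ) := by
    push_cast
    linarith [Int.le_ceil (t * q)]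
  set a : ℤ := ⌊s * q⌋ + 1 with had
  set b : ℤ := ⌈t * q⌉ - 1 with hbd
  have hab : 2 * a + 3 ≤ b := by
    have h1 : 2 * (a : ℝ) + 3 ≤ b := by nlinarith
    exact_mod_cast h1
  refine ⟨K1 + K2 + K3, q, a, b, hqd, ?_, hab, ha1, hb1, ?_⟩
  · have h1 : (0 : ℝ) < a := lt_of_le_of_lt (by positivity) ha1
    exact_mod_cast h1
  · intro k hk1 hk2
    have hM0' : (0 : ℝ) ≤ M := Nat.cast_nonneg M
    have hkM : k ≤ M := by
      by_contra h
      push Not at h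
      have h1 : ((M : ℝ) + 1) ≤ k := by
        have : (M : ℤ) + 1 ≤ k := h
        exact_mod_cast this
      have h2 : (k : ℝ) * b ≤ q := by exact_mod_cast hk2
      have h3 : t * q / 2 ≤ (b : ℝ) := by linarith
      have h4 : ((M : ℝ) + 1) * (t * q / 2) ≤ k * b :=
        mul_le_mul h1 h3 (by positivity) (by linarith)
      nlinarith
    have hkn : k.toNat ≤ M := by omega
    have hkn1 : 1 ≤ k.toNat := by omega
    obtain ⟨x, hx1, hx2, hx3⟩ := hx (k.toNat * m) (by nlinarith)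
      (Nat.mul_le_mul_right m hkn)
    have hkc : ((k.toNat : ℕ) : ℝ) = (k : ℝ) := by
      have : ((k.toNat : ℕ) : ℤ) = k := Int.toNat_of_nonneg (by omega)
      exact_mod_cast this
    push_cast at hx2
    rw [hkc] at hx2
    have hd1 : ((⌊x * q⌋ : ℤ) : ℝ) ≤ x * q := Int.floor_le _
    have hd2 : x * q - 1 < ((⌊x * q⌋ : ℤ) : ℝ) := Int.sub_one_lt_floor _
    have hxp := (hV1 hx1).1
    have hxl := (hV1 hx1).2
    set d : ℤ := ⌊x * q⌋ with hdd
    have hMm : (0 : ℝ) ≤ (M : ℝ) * m := by positivity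
    refine ⟨d, ?_, ?_, ?_, round (k * m * x), ?_⟩
    · rw [hdd]
      exact Int.floor_nonneg.2 (by positivity)
    · have h1 : (d : ℝ) < q := by nlinarith
      exact_mod_cast h1
    · apply hx3
      have h1 : (d : ℝ) / q - x = (d - x * q) / q := by
        field_simp
      rw [h1, abs_div, abs_of_pos hq0, div_lt_iff₀ hq0]
      have h2 : |(d : ℝ) - x * q| ≤ 1 := by
        rw [abs_le]
        constructor <;> linarith
      have h3 : (0 : ℝ) ≤ 258 * (M : ℝ) ^ 3 := by positivity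
      linarith
    · have hkR : (1 : ℝ) ≤ k := by exact_mod_cast hk1
      have hkMR : (k : ℝ) ≤ M := by exact_mod_cast hkM
      have hkm : (1 : ℝ) ≤ k * m := by nlinarith
      have e0 : |(k : ℝ) * m * x - round ((k : ℝ) * m * x)| ≤ 1 / 4 - η := hx2
      have e1 : |(k : ℝ) * (m * d) - round ((k : ℝ) * m * x) * q| ≤
          (1 / 4 - η) * q + M * m := by
        have e2 : (k : ℝ) * (m * d) - round ((k : ℝ) * m * x) * q =
            ((k : ℝ) * m * x - round ((k : ℝ) * m * x)) * q + (k * m) * (d - x * q) := by ring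
        rw [e2]
        refine (abs_add_le _ _).trans ?_
        rw [abs_mul, abs_mul, abs_of_pos hq0, abs_of_pos (lt_of_lt_of_le one_pos hkm)]
        have e3 : |(d : ℝ) - x * q| ≤ 1 := by
          rw [abs_le]
          constructor <;> linarith
        have e9 : (k : ℝ) * m ≤ M * m := mul_le_mul_of_nonneg_right hkMR (by linarith)
        have e4 : ((k : ℝ) * m) * |(d : ℝ) - x * q| ≤ (M * m) * 1 :=
          mul_le_mul e9 e3 (abs_nonneg _) hMm
        have e5 := mul_le_mul_of_nonneg_right e0 hq0.le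
        linarith
      have e7 : (k : ℝ) ^ 3 ≤ (M : ℝ) ^ 3 := pow_le_pow_left₀ (by linarith) hkMR 3
      have e8 : (0 : ℝ) ≤ (M : ℝ) ^ 3 := by positivity
      have e6 : 4 * |(k : ℝ) * (m * d) - round ((k : ℝ) * m * x) * q| + 258 * (k : ℝ) ^ 3 < q := by
        nlinarith
      exact_mod_cast e6

end Pool.Agent.WNE
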