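import Pool.Agent.WND.Eq

/-!
# WNE: a periodic colouring without monochromatic triples of differences in a long interval is
close to a half circle colouring
-/

set_option autoImplicit false

open Finset

namespace Pool.Agent.WNE

open Pool.Agent.WND

theorem uniq_left {f : ℤ → ℤ} (hf : Pm f) {a b : ℤ} (hA : Av f a b) (ha : 0 < a) {u v w : ℤ}
    (hu : Fl f u) (hv : Fl f v) (hw : Fl f w) (h1 : u < v) (h2 : v + a < w) (h3 : w < u + b) :
    False := by
  set g : ℤ → ℤ := fun x => f (-x) with hg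
  have hgf : Pm g := fun x => hf (-x)
  have hgA : Av g a b := by
    rintro x d e1 e2 ⟨e3, e4⟩
    simp only [hg] at e3 e4
    apply hA (-(x + 2 * d)) d e1 e2
    rw [show -(x + 2 * d) + d = -(x + d) by ring, show -(x + 2 * d) + 2 * d = -x by ring, e3, e4]
    exact ⟨rfl, rfl⟩
  have hfl : ∀ x, Fl f x → Fl g (-x - 1) := by
    intro x hx h
    simp only [hg] at h
    apply hx
    rw [show -(-x - 1 + 1) = x by ring, show -(-x - 1) = x + 1 by ring] at h
    exact h.symm
  exact uniq_right hgf hgA ha (u := -w - 1) (v := -v - 1) (w := -u - 1) (hfl w hw) (hfl v hv)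
    (hfl u hu) (by omega) (by omega) (by omega)

/-- constant between walls -/
theorem const_of_noFl {f : ℤ → ℤ} {u w : ℤ} (hno : ∀ z, u < z → z < w → ¬ Fl f z) :
    ∀ y, u < y → y ≤ w → f y = f (u + 1) := by
  intro y hy
  have hy' : u + 1 ≤ y := by omega
  clear hy
  induction y, hy' using Int.leInduction with
  | base => intro _; rfl
  | succ n hn ih =>
    intro hnw
    have e := ih (by omega)
    have h := hno n (by omega) (by omega)
    unfold Fl at h
    push Not at h
    rw [h, e]

theorem flip_val {f : ℤ → ℤ} (hf : Pm f) {u : ℤ} (hu : Fl f u) : f (u + 1) = - f u := by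
  have h1 := hf u
  have h2 := hf (u + 1)
  have h3 : f (u + 1) ≠ f u := hu
  omega

/-- a wall in the window -/
theorem exists_wall {f : ℤ → ℤ} (hf : Pm f) {a b : ℤ} (hA : Av f a b) (hab : 2 * a + 3 ≤ b)
    (ha : 0 < a) {u : ℤ} (hu : Fl f u) :
    ∃ w, Fl f w ∧ u + a < w ∧ w ≤ u + 2 * a + 2 := by
  by_contra hcon
  push Not at hcon
  have hno : ∀ z, u + a < z → z < u + 2 * a + 3 → ¬ Fl f z := by
    intro z h1 h2 h3
    have := hcon z h3 h1
    omega
  have hc := const_of_noFl hno
  have e1 := hc (u + 2 * a + 2) (by omega) (by omega)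
  have e2 := hc (u + a + 2) (by omega) (by omega)
  have e3 := hc (u + 2 * a + 3) (by omega) (by omega)
  have n1 := hA u (a + 1) (by omega) (by omega)
  have n2 := hA (u + 1) (a + 1) (by omega) (by omega)
  rw [show u + (a + 1) = u + a + 1 by ring, show u + 2 * (a + 1) = u + 2 * a + 2 by ring, e1] at n1
  rw [show u + 1 + (a + 1) = u + a + 2 by ring, show u + 1 + 2 * (a + 1) = u + 2 * a + 3 by ring,
    e2, e3] at n2
  have h0 := hf u
  have h1 := hf (u + 1)
  have h2 := hf (u + a + 1)
  have h3 := flip_val hf hu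
  rcases h0 with h0 | h0 <;> rcases h2 with h2 | h2 <;> rw [h0, h2] at n1 <;>
    rw [h3, h0, h2] at n2 <;> omega

/-- no wall close behind a wall -/
theorem no_close {f : ℤ → ℤ} (hf : Pm f) {a b : ℤ} (hA : Av f a b) (hab : 2 * a + 3 ≤ b)
    (ha : 0 < a) {u j : ℤ} (hu : Fl f u) (hj : Fl f j) (h1 : u < j) (h2 : j ≤ u + a) : False := by
  -- take the last one
  obtain ⟨j, ⟨hj, h1, h2⟩, hmax⟩ : ∃ j, (Fl f j ∧ u < j ∧ j ≤ u + a) ∧
      ∀ z, Fl f z ∧ u < z ∧ z ≤ u + a → z ≤ j := by
    obtain ⟨j', hj', hm⟩ := Int.exists_greatest_of_bdd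
      (P := fun z => Fl f z ∧ u < z ∧ z ≤ u + a) ⟨u + a, fun z hz => hz.2.2⟩ ⟨j, hj, h1, h2⟩
    exact ⟨j', hj', hm⟩
  obtain ⟨w, hw, hw1, hw2⟩ := exists_wall hf hA hab ha hu
  obtain ⟨v, hv, hv1, hv2⟩ := exists_wall hf hA hab ha hj
  have hnojw : ∀ z, j < z → z < w → ¬ Fl f z := by
    intro z hz1 hz2 hz
    rcases le_or_gt z (u + a) with h | h
    · have := hmax z ⟨hz, by omega, h⟩
      omega
    · exact uniq_right hf hA ha hu hz hw h hz2 (by omega)
  have e1 : f w = - f j := by
    rw [const_of_noFl hnojw w (by omega) le_rfl, flip_val hf hj]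
  have e2 : f w = - f u := by
    have := no_eq hf hA ha (x := u) (d := w - u) (by omega) (by omega) hu
      (by rw [show u + (w - u) = w by ring]; exact hw)
    rwa [show u + (w - u) = w by ring] at this
  have e3 : f v = - f j := by
    have := no_eq hf hA ha (x := j) (d := v - j) (by omega) (by omega) hj
      (by rw [show j + (v - j) = v by ring]; exact hv)
    rwa [show j + (v - j) = v by ring] at this
  rcases lt_trichotomy v w with h | h | h
  · exact hnojw v (by omega) h hv
  · subst h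
    exact uniq_left hf hA ha hu hj hv h1 hv1 (by omega)
  · rcases lt_or_ge v (u + b) with h' | h'
    · exact uniq_right hf hA ha hu hw hv hw1 h h'
    · have hwj : w ≤ j + a := by
        by_contra hc
        push Not at hc
        exact uniq_right hf hA ha hj hw hv hc h (by omega)
      -- a wall between `w` and `v`
      obtain ⟨z, hz, hz1, hz2⟩ : ∃ z, Fl f z ∧ w < z ∧ z < v := by
        by_contra hcon
        push Not at hcon
        have hno : ∀ z, w < z → z < v → ¬ Fl f z := by
          intro z hz1 hz2 hz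
          have := hcon z hz hz1
          omega
        have h5 := const_of_noFl hno v h le_rfl
        rw [flip_val hf hw, e3, e1] at h5
        have := hf j
        omega
      rcases lt_or_ge (j + a) z with h6 | h6
      · exact uniq_right hf hA ha hj hz hv h6 hz2 (by omega)
      · exact uniq_right hf hA ha hu hw hz hw1 hz1 (by omega)

/-- the properties of the next wall -/
structure Nx (f : ℤ → ℤ) (a b u w : ℤ) : Prop where
  fl : Fl f w
  lo : u + a < w
  hi : w ≤ u + 2 * a + 2
  no : ∀ z, u < z → z < w → ¬ Fl f z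
  far : ∀ z, Fl f z → w < z → u + b ≤ z

theorem exists_next {f : ℤ → ℤ} (hf : Pm f) {a b : ℤ} (hA : Av f a b) (hab : 2 * a + 3 ≤ b)
    (ha : 0 < a) {u : ℤ} (hu : Fl f u) : ∃ w, Nx f a b u w := by
  obtain ⟨w, hw, h1, h2⟩ := exists_wall hf hA hab ha hu
  refine ⟨w, hw, h1, h2, ?_, ?_⟩
  · intro z hz1 hz2 hz
    rcases le_or_gt z (u + a) with h | h
    · exact no_close hf hA hab ha hu hz hz1 h
    · exact uniq_right hf hA ha hu hz hw h hz2 (by omega)
  · intro z hz hz1
    by_contra hc
    push Not at hc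
    exact uniq_right hf hA ha hu hw hz h1 hz1 hc

theorem Nx.val {f : ℤ → ℤ} (hf : Pm f) {a b u w : ℤ} (hu : Fl f u) (h : Nx f a b u w) :
    ∀ y, u < y → y ≤ w → f y = - f u := by
  intro y h1 h2
  rw [const_of_noFl h.no y h1 h2, flip_val hf hu]

/-- consecutive gaps differ by at most one -/
theorem gap_diff {f : ℤ → ℤ} (hf : Pm f) {a b : ℤ} (hA : Av f a b) (hab : 2 * a + 3 ≤ b)
    (ha : 0 < a) {u w w' : ℤ} (hu : Fl f u) (h : Nx f a b u w) (h' : Nx f a b w w') :
    w' - w ≤ w - u + 1 ∧ w - u ≤ w' - w + 1 := by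
  have l1 := h.lo
  have l2 := h.hi
  have l3 := h'.lo
  have l4 := h'.hi
  have v0 : f w = - f u := h.val hf hu w (by omega) le_rfl
  constructor
  · by_contra hc
    push Not at hc
    apply hA u (w - u + 1) (by omega) (by omega)
    have e1 := h'.val hf h.fl (u + (w - u + 1)) (by omega) (by omega)
    have e2 := h'.val hf h.fl (u + 2 * (w - u + 1)) (by omega) (by omega)
    rw [e1, e2, v0, neg_neg]
    exact ⟨rfl, rfl⟩
  · by_contra hc
    push Not at hc
    apply hA (w - (w' - w + 1)) (w' - w + 1) (by omega) (by omega)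
    have e1 := h.val hf hu (w - (w' - w + 1)) (by omega) (by omega)
    have e2 : f (w' + 1) = - f u := by
      rw [flip_val hf h'.fl, h'.val hf h.fl w' (by omega) le_rfl, v0]
      ring
    rw [show w - (w' - w + 1) + (w' - w + 1) = w by ring,
      show w - (w' - w + 1) + 2 * (w' - w + 1) = w' + 1 by ring, e1, e2, v0]
    exact ⟨rfl, rfl⟩

/-- the sequence of walls -/
theorem exists_seq {f : ℤ → ℤ} (hf : Pm f) {a b : ℤ} (hA : Av f a b) (hab : 2 * a + 3 ≤ b)
    (ha : 0 < a) {u : ℤ} (hu : Fl f u) :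
    ∃ U : ℕ → ℤ, U 0 = u ∧ (∀ n, Fl f (U n)) ∧ ∀ n, Nx f a b (U n) (U (n + 1)) := by
  have h0 : ∀ x : {x // Fl f x}, ∃ y : {x // Fl f x}, Nx f a b x.1 y.1 := by
    intro x
    obtain ⟨w, hw⟩ := exists_next hf hA hab ha x.2
    exact ⟨⟨w, hw.fl⟩, hw⟩
  choose nx hnx using h0
  refine ⟨fun n => (nx^[n] ⟨u, hu⟩).1, rfl, fun n => (nx^[n] ⟨u, hu⟩).2, fun n => ?_⟩
  simp only [Function.iterate_succ_apply']
  exact hnx _

/-- the structure theorem -/
theorem str {f : ℤ → ℤ} {q : ℕ} {a b : ℤ} (hf : Pm f) (hp : Per f q) (hA : Av f a b)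
    (ha : 0 < a) (hab : 2 * a + 3 ≤ b) (hq : 0 < q) :
    ∃ k : ℤ, 1 ≤ k ∧ k * b ≤ q ∧ ∀ d : ℤ, 0 ≤ d → d < q →
      (∀ x, ¬ (f (x + d) = f x ∧ f (x + 2 * d) = f x)) →
        ∀ n : ℤ, (q : ℤ) ≤ 4 * |k * d - n * q| + 258 * k ^ 3 := by
  have hqZ : (0 : ℤ) < q := by exact_mod_cast hq
  -- a wall
  obtain ⟨u, hu⟩ : ∃ u, Fl f u := by
    by_contra hcon
    push Not at hcon
    have hc : ∀ y, (0 : ℤ) < y → f y = f 1 := by
      intro y hy
      have := const_of_noFl (f := f) (u := 0) (w := y) (fun z _ _ => hcon z) y hy le_rfl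
      simpa using this
    apply hA 1 a le_rfl (by omega)
    rw [hc (1 + a) (by omega), hc (1 + 2 * a) (by omega)]
    exact ⟨rfl, rfl⟩
  obtain ⟨U, hU0, hUf, hUn⟩ := exists_seq hf hA hab ha hu
  have hval : ∀ n, f (U n) = (-1) ^ n * f (U 0) := by
    intro n
    induction n with
    | zero => simp
    | succ n ih =>
      have hl := (hUn n).lo
      rw [(hUn n).val hf (hUf n) _ (by omega) le_rfl, ih, pow_succ]
      ring
  have hgrow : ∀ n : ℕ, U 0 + n ≤ U n := by
    intro n
    induction n with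
    | zero => simp
    | succ n ih =>
      have := (hUn n).lo
      push_cast
      omega
  -- the period
  obtain ⟨N, hN⟩ : ∃ N : ℕ, U N = U 0 + q := by
    classical
    have hex : ∃ n : ℕ, U 0 + q < U n := ⟨q + 1, by have := hgrow (q + 1); push_cast at this; omega⟩
    have h1 := Nat.find_spec hex
    have h2 : Nat.find hex ≠ 0 := by
      intro h
      rw [h] at h1
      omega
    obtain ⟨N, hN⟩ := Nat.exists_eq_succ_of_ne_zero h2
    have h3 : ¬ (U 0 + q < U N) := Nat.find_min hex (by omega)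
    rw [hN] at h1
    refine ⟨N, ?_⟩
    by_contra hne
    have hlt : U N < U 0 + q := by omega
    refine (hUn N).no (U 0 + q) hlt h1 ?_
    unfold Fl
    have e1 := hp (U 0)
    have e2 := hp (U 0 + 1)
    rw [show U 0 + q + 1 = U 0 + 1 + q by ring, e1, e2]
    exact hUf 0
  have hNev : Even N := by
    rcases Nat.even_or_odd N with h | h
    · exact h
    · exfalso
      have e1 := hval N
      rw [hN, hp, h.neg_one_pow] at e1
      have := hf (U 0)
      omega
  obtain ⟨k0, hk0⟩ := hNev
  have hNpos : N ≠ 0 := by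
    intro h
    rw [h] at hN
    omega
  obtain ⟨k, hk⟩ : ∃ k : ℤ, k = (k0 : ℤ) := ⟨_, rfl⟩
  have hk1 : 1 ≤ k := by omega
  have hNk : (N : ℤ) = 2 * k := by rw [hk, hk0]; push_cast; ring
  -- two steps are at least `b`
  have hb2 : ∀ i : ℕ, (i : ℤ) * b ≤ U (2 * i) - U 0 := by
    intro i
    induction i with
    | zero => simp
    | succ i ih =>
      have h1 := (hUn (2 * i)).far (U (2 * i + 1 + 1)) (hUf _) (by
        have h2 := (hUn (2 * i + 1)).lo
        omega)
      have e : 2 * (i + 1) = 2 * i + 1 + 1 := by ring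
      rw [e]
      push_cast
      nlinarith
  have hkb : k * b ≤ q := by
    have h1 := hb2 k0
    have e : 2 * k0 = N := by omega
    rw [e, hN] at h1
    rw [hk]
    linarith
  refine ⟨k, hk1, hkb, ?_⟩
  -- gaps
  obtain ⟨g, hg⟩ : ∃ g : ℕ → ℤ, ∀ n, g n = U (n + 1) - U n := ⟨_, fun n => rfl⟩
  have hgd : ∀ n, |g (n + 1) - g n| ≤ 1 := by
    intro n
    have := gap_diff hf hA hab ha (hUf n) (hUn n) (hUn (n + 1))
    rw [abs_le, hg, hg]
    constructor <;> omega
  have hgd2 : ∀ i m : ℕ, |g (i + m) - g i| ≤ m := by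
    intro i m
    induction m with
    | zero => simp
    | succ m ih =>
      have h1 := hgd (i + m)
      rw [abs_le] at h1 ih ⊢
      rw [← add_assoc]
      push_cast
      constructor <;> linarith
  have hgd3 : ∀ i j : ℕ, i ≤ 4 * N → j ≤ 4 * N → |g j - g i| ≤ 8 * k := by
    intro i j hi hj
    rcases le_total i j with h | h
    · obtain ⟨m, rfl⟩ := Nat.exists_eq_add_of_le h
      refine (hgd2 i m).trans ?_
      omega
    · obtain ⟨m, rfl⟩ := Nat.exists_eq_add_of_le h
      rw [abs_sub_comm]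
      refine (hgd2 j m).trans ?_
      omega
  have hg1 : ∀ j m : ℕ, j ≤ 4 * N → m ≤ 4 * N → |(m : ℤ) * g j - (U m - U 0)| ≤ m * (8 * k) := by
    intro j m hj
    induction m with
    | zero => intro _; simp
    | succ m ih =>
      intro hm
      have h1 := ih (by omega)
      have h2 := hgd3 m j (by omega) hj
      have h3 := hg m
      rw [abs_le] at h1 h2 ⊢
      push_cast
      constructor <;> nlinarith
  have hg2 : ∀ j : ℕ, j ≤ 4 * N → |2 * k * g j - q| ≤ 16 * k ^ 2 := by
    intro j hj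
    have h1 := hg1 j N hj (by omega)
    rw [hN, hNk] at h1
    have e1 : 2 * k * g j - (U 0 + q - U 0) = 2 * k * g j - q := by ring
    rw [e1] at h1
    refine h1.trans (le_of_eq (by ring))
  have hg3 : ∀ i : ℕ, i ≤ 4 * N → |2 * k * (U i - U 0) - i * q| ≤ i * (16 * k ^ 2) := by
    intro i
    induction i with
    | zero => intro _; simp
    | succ i ih =>
      intro hi
      have h1 := ih (by omega)
      have h2 := hg2 i (by omega)
      have h3 := hg i
      have e : 2 * k * (U (i + 1) - U 0) - ((i + 1 : ℕ) : ℤ) * q =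
          (2 * k * (U i - U 0) - i * q) + (2 * k * g i - q) := by
        rw [h3]; push_cast; ring
      rw [e]
      refine (abs_add_le _ _).trans ?_
      push_cast
      linarith
  have hk3 : k ≤ k ^ 3 := by nlinarith [mul_pos (by omega : (0 : ℤ) < k) (by omega : (0 : ℤ) < k)]
  have hg4 : ∀ i : ℕ, i ≤ 4 * N → |2 * k * (U i - U 0) - i * q| ≤ 128 * k ^ 3 := by
    intro i hi
    refine (hg3 i hi).trans ?_
    have h1 : (i : ℤ) ≤ 8 * k := by omega
    have h2 : (0 : ℤ) ≤ 16 * k ^ 2 := by positivity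
    calc (i : ℤ) * (16 * k ^ 2) ≤ 8 * k * (16 * k ^ 2) := mul_le_mul_of_nonneg_right h1 h2
      _ = 128 * k ^ 3 := by ring
  -- the colour of a point
  have hcol : ∀ (ν : ℕ) (x : ℤ), 2 * ν + 1 ≤ 4 * N →
      ((2 * ν : ℕ) : ℤ) * q + 128 * k ^ 3 < 2 * k * (x - U 0) →
      2 * k * (x - U 0) ≤ (((2 * ν : ℕ) : ℤ) + 1) * q - 128 * k ^ 3 → f x = - f (U 0) := by
    intro ν x hν h1 h2
    have h3 := abs_le.1 (hg4 (2 * ν) (by omega))
    have h4 := abs_le.1 (hg4 (2 * ν + 1) (by omega))
    have h5 : U (2 * ν) < x := by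
      have : 2 * k * (U (2 * ν) - U 0) < 2 * k * (x - U 0) := by linarith [h3.2]
      have := lt_of_mul_lt_mul_left this (by omega)
      omega
    have h6 : x ≤ U (2 * ν + 1) := by
      have h7 : 2 * k * (x - U 0) ≤ 2 * k * (U (2 * ν + 1) - U 0) := by
        have := h4.1
        push_cast at this h2 ⊢
        linarith
      have := le_of_mul_le_mul_left h7 (by omega)
      omega
    rw [(hUn (2 * ν)).val hf (hUf _) x h5 h6, hval (2 * ν), pow_mul]
    simp
  intro d hd0 hdq hav n
  by_contra hcon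
  push Not at hcon
  have hk30 : 0 < k ^ 3 := by positivity
  have habs := abs_nonneg (k * d - n * q)
  have hle1 := le_abs_self (k * d - n * q)
  have hle2 := neg_abs_le (k * d - n * q)
  have hkd0 : 0 ≤ k * d := mul_nonneg (by omega) hd0
  have hkdq : k * d ≤ k * q := mul_le_mul_of_nonneg_left hdq.le (by omega)
  have hn0 : 0 ≤ n := by
    by_contra hc
    push Not at hc
    have : n * q ≤ -1 * q := mul_le_mul_of_nonneg_right (by omega) hqZ.le
    linarith
  have hnk : n ≤ k := by
    by_contra hc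
    push Not at hc
    have : (k + 1) * q ≤ n * q := mul_le_mul_of_nonneg_right (by omega) hqZ.le
    linarith
  obtain ⟨ν, hν⟩ := Int.eq_ofNat_of_zero_le hn0
  have hνN : ν ≤ k0 := by omega
  obtain ⟨e, he⟩ : ∃ e : ℤ, e = k * d - n * q := ⟨_, rfl⟩
  rw [← he] at hcon habs hle1 hle2
  have hkd : k * d = n * q + e := by linarith
  -- the starting point
  obtain ⟨r, hr1, hr2⟩ : ∃ r : ℤ, (0 ≤ e → 2 * k * r = 128 * k ^ 3 + 2 * k) ∧
      (e < 0 → 2 * k * r ≤ q - 128 * k ^ 3 ∧ q - 128 * k ^ 3 < 2 * k * r + 2 * k) := by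
    rcases le_or_gt 0 e with h | h
    · exact ⟨64 * k ^ 2 + 1, fun _ => by ring, fun h' => absurd h (by omega)⟩
    · refine ⟨(q - 128 * k ^ 3) / (2 * k), fun h' => absurd h' (by omega), fun _ => ⟨?_, ?_⟩⟩
      · exact Int.mul_ediv_self_le (by omega)
      · have := Int.lt_mul_ediv_self_add (x := (q : ℤ) - 128 * k ^ 3) (k := 2 * k) (by omega)
        linarith
  have c0 : f (U 0 + r) = - f (U 0) := by
    apply hcol 0 _ (by omega)
    · rw [show U 0 + r - U 0 = r by ring]
      push_cast
      rcases le_or_gt 0 e with h | h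
      · have := hr1 h
        linarith
      · have := (hr2 h).2
        linarith
    · rw [show U 0 + r - U 0 = r by ring]
      push_cast
      rcases le_or_gt 0 e with h | h
      · have := hr1 h
        linarith
      · have := (hr2 h).1
        linarith
  have c1 : f (U 0 + r + d) = - f (U 0) := by
    apply hcol ν _ (by omega)
    · have e1 : 2 * k * (U 0 + r + d - U 0) = 2 * k * r + 2 * (n * q + e) := by rw [← hkd]; ring
      rw [e1, hν]
      push_cast
      rcases le_or_gt 0 e with h | h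
      · have := hr1 h
        linarith
      · have := (hr2 h).2
        linarith
    · have e1 : 2 * k * (U 0 + r + d - U 0) = 2 * k * r + 2 * (n * q + e) := by rw [← hkd]; ring
      rw [e1, hν]
      push_cast
      rcases le_or_gt 0 e with h | h
      · have := hr1 h
        linarith
      · have := (hr2 h).1
        linarith
  have c2 : f (U 0 + r + 2 * d) = - f (U 0) := by
    apply hcol (2 * ν) _ (by omega)
    · have e1 : 2 * k * (U 0 + r + 2 * d - U 0) = 2 * k * r + 4 * (n * q + e) := by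
        rw [← hkd]; ring
      rw [e1, hν]
      push_cast
      rcases le_or_gt 0 e with h | h
      · have := hr1 h
        linarith
      · have := (hr2 h).2
        linarith
    · have e1 : 2 * k * (U 0 + r + 2 * d - U 0) = 2 * k * r + 4 * (n * q + e) := by
        rw [← hkd]; ring
      rw [e1, hν]
      push_cast
      rcases le_or_gt 0 e with h | h
      · have := hr1 h
        linarith
      · have := (hr2 h).1
        linarith
  exact hav (U 0 + r) ⟨by rw [c1, c0], by rw [c2, c0]⟩

end Pool.Agent.WNE
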