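import Pool.Agent.WND.Vdw
import Pool.Agent.WND.Lim
import Pool.Agent.WND.Cnv

/-!
# WNE: the passage from the integers to a cyclic window, for an open set of the circle
-/

set_option autoImplicit false

open Finset

namespace Pool.Agent.WNE

open Pool.Agent.WND

/-- a common margin for the finitely many differences of the window -/
theorem marginU (V : Set ℝ) (hV : IsOpen V) (q R : ℕ) : ∃ ε : ℝ, 0 < ε ∧ ∀ d : ℤ, |d| ≤ 2 * R →
    Int.fract ((d : ℝ) / q) ∈ V → ∀ y, |y - Int.fract ((d : ℝ) / q)| < ε → y ∈ V := by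
  classical
  have key : ∀ S : Finset ℤ, ∃ ε : ℝ, 0 < ε ∧ ∀ d ∈ S,
      Int.fract ((d : ℝ) / q) ∈ V → ∀ y, |y - Int.fract ((d : ℝ) / q)| < ε → y ∈ V := by
    intro S
    induction S using Finset.induction_on with
    | empty => exact ⟨1, one_pos, by simp⟩
    | insert a S _ ih =>
      obtain ⟨ε, h0, h⟩ := ih
      by_cases ha : Int.fract ((a : ℝ) / q) ∈ V
      · obtain ⟨ε', h0', h'⟩ := Metric.isOpen_iff.1 hV _ ha
        refine ⟨min ε ε', lt_min h0 h0', ?_⟩
        intro d hd h1 y hy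
        rcases Finset.mem_insert.1 hd with rfl | hd
        · apply h'
          rw [Metric.mem_ball, Real.dist_eq]
          exact lt_of_lt_of_le hy (min_le_right _ _)
        · exact h d hd h1 y (lt_of_lt_of_le hy (min_le_left _ _))
      · refine ⟨ε, h0, ?_⟩
        intro d hd h1
        rcases Finset.mem_insert.1 hd with rfl | hd
        · exact absurd h1 ha
        · exact h d hd h1
  obtain ⟨ε, h0, h⟩ := key (Finset.Icc (-(2 * (R : ℤ))) (2 * R))
  refine ⟨ε, h0, fun d hd h1 => h d ?_ h1⟩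
  rw [abs_le] at hd
  rw [Finset.mem_Icc]
  exact hd

theorem window_colU (α : ℝ) (hα : Irrational α) (V : Set ℝ) (hV : IsOpen V)
    (hV1 : V ⊆ Set.Ioo 0 1) (N : ℕ) (C : ℤ → Bool)
    (hC : ∀ (x : ℤ) (d : ℕ), N ≤ d → Int.fract (α * d) ∈ V →
      ¬ (C (x + d) = C x ∧ C (x + 2 * d) = C x)) (q : ℕ) (hq : 0 < q) (R : ℕ) :
    ∃ C' : ℤ → Bool, ∀ x d : ℤ, |x| ≤ R → |x + d| ≤ R → |x + 2 * d| ≤ R →
      Int.fract ((d : ℝ) / q) ∈ V →
      ¬ (C' (x + d) = C' x ∧ C' (x + 2 * d) = C' x) := by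
  classical
  obtain ⟨ε, hε, hmar⟩ := marginU V hV q R
  -- the step `e`
  obtain ⟨e, he, m, hm⟩ := vdw_exists_multiple α hα (ε / (2 * (2 * R + 1))) (1 / q)
    (by positivity) 1
  -- the cells
  obtain ⟨K, hK⟩ := exists_nat_gt (2 / ε)
  have hK0 : (0 : ℝ) < K := lt_trans (by positivity) hK
  have hKε : 1 / (K : ℝ) < ε / 2 := by
    rw [div_lt_iff₀ hε] at hK
    rw [div_lt_iff₀ hK0]
    nlinarith
  set g0 : ℕ := N + 2 * R * e + 1 with hg0
  -- the colouring of the natural numbers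
  let col : ℕ → (Finset.Icc (-(R : ℤ)) R → Bool) × Fin K := fun σ =>
    (fun n => C (e * (n : ℤ) + g0 * σ),
      ⟨⌊(K : ℝ) * Int.fract (α * (g0 * σ : ℕ))⌋₊, by
        have h1 := Int.fract_lt_one (α * (g0 * σ : ℕ))
        have h0 := Int.fract_nonneg (α * (g0 * σ : ℕ))
        rw [Nat.floor_lt (by positivity)]
        nlinarith⟩)
  obtain ⟨A, hA, b, c, hc⟩ := Combinatorics.exists_mono_homothetic_copy ({0, 1, 2} : Finset ℕ) col
  have c0 : col b = c := by simpa using hc 0 (by simp)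
  have c1 : col (A + b) = c := by simpa using hc 1 (by simp)
  have c2 : col (A * 2 + b) = c := by simpa using hc 2 (by simp)
  have p1 : ∀ n : ℤ, |n| ≤ R → C (e * n + g0 * (A + b : ℕ)) = C (e * n + g0 * b) := by
    intro n hn
    have hn' : n ∈ Finset.Icc (-(R : ℤ)) R := by
      rw [Finset.mem_Icc]; exact abs_le.1 hn
    have := congrFun (congrArg Prod.fst (c1.trans c0.symm)) ⟨n, hn'⟩
    exact this
  have p2 : ∀ n : ℤ, |n| ≤ R → C (e * n + g0 * (A * 2 + b : ℕ)) = C (e * n + g0 * b) := by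
    intro n hn
    have hn' : n ∈ Finset.Icc (-(R : ℤ)) R := by
      rw [Finset.mem_Icc]; exact abs_le.1 hn
    have := congrFun (congrArg Prod.fst (c2.trans c0.symm)) ⟨n, hn'⟩
    exact this
  have p3 : ∃ (z : ℤ) (θ : ℝ), α * (g0 * A : ℕ) = z + θ ∧ |θ| < 1 / K := by
    have h := congrArg Fin.val (congrArg Prod.snd (c1.trans c0.symm))
    have h' : ⌊(K : ℝ) * Int.fract (α * (g0 * (A + b) : ℕ))⌋₊ =
        ⌊(K : ℝ) * Int.fract (α * (g0 * b : ℕ))⌋₊ := h
    refine ⟨⌊α * (g0 * (A + b) : ℕ)⌋ - ⌊α * (g0 * b : ℕ)⌋,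
      Int.fract (α * (g0 * (A + b) : ℕ)) - Int.fract (α * (g0 * b : ℕ)), ?_, ?_⟩
    · simp only [Int.fract]
      push_cast
      ring
    · set u := Int.fract (α * (g0 * (A + b) : ℕ)) with hu
      set v := Int.fract (α * (g0 * b : ℕ)) with hv
      have hu0 : 0 ≤ (K : ℝ) * u := mul_nonneg hK0.le (Int.fract_nonneg _)
      have hv0 : 0 ≤ (K : ℝ) * v := mul_nonneg hK0.le (Int.fract_nonneg _)
      have a1 := Nat.floor_le hu0
      have a2 := Nat.lt_floor_add_one ((K : ℝ) * u)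
      have a3 := Nat.floor_le hv0
      have a4 := Nat.lt_floor_add_one ((K : ℝ) * v)
      rw [h'] at a1 a2
      rw [lt_div_iff₀ hK0]
      have : |u - v| * K = |K * u - K * v| := by
        rw [← mul_sub, abs_mul, Nat.abs_cast]; ring
      rw [this, abs_lt]
      constructor <;> linarith
  obtain ⟨z, θ, hz, hθ⟩ := p3
  refine ⟨fun n => C (e * n + g0 * b), ?_⟩
  intro x d hx hxd hx2 h1 hmono
  obtain ⟨hm1, hm2⟩ := hmono
  simp only at hm1 hm2
  have hd : |d| ≤ 2 * R := by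
    rw [abs_le] at hx hxd ⊢
    constructor <;> linarith [hx.1, hx.2, hxd.1, hxd.2]
  have hmd := hmar d hd h1
  -- the difference
  have hDpos : (N : ℤ) ≤ e * d + g0 * A := by
    have hA1 : (1 : ℤ) ≤ A := by exact_mod_cast hA
    have hd' := (abs_le.1 hd).1
    have he0 : (0 : ℤ) ≤ e := Int.natCast_nonneg e
    have e1 : -(2 * (R : ℤ) * e) ≤ e * d := by nlinarith
    have e2 : (g0 : ℤ) ≤ g0 * A := by nlinarith [Int.natCast_nonneg g0]
    have e3 : (g0 : ℤ) = N + 2 * R * e + 1 := by rw [hg0]; push_cast; ring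
    linarith
  obtain ⟨D, hD⟩ := Int.eq_ofNat_of_zero_le (le_trans (Int.natCast_nonneg N) hDpos)
  have hND : N ≤ D := by
    rw [hD] at hDpos
    exact_mod_cast hDpos
  have hDR : (D : ℝ) = e * d + g0 * A := by
    have : ((D : ℤ) : ℝ) = ((e * d + g0 * A : ℤ) : ℝ) := by rw [hD]
    push_cast at this
    exact this
  -- the rotation number of the difference
  set δ : ℝ := α * e - 1 / q - m with hδ
  have hfr : α * D = (d : ℝ) / q + ((d * m + z : ℤ) : ℝ) + (d * δ + θ) := by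
    rw [hDR]
    push_cast at hz ⊢
    have : α * (e * d + g0 * A) = d * (α * e) + α * (g0 * A) := by ring
    rw [this, hz, hδ]
    ring
  have hsmall : |(d : ℝ) * δ + θ| < ε := by
    have hdR : |(d : ℝ)| ≤ 2 * R := by exact_mod_cast hd
    have b1 : |(d : ℝ) * δ| ≤ ε / 2 := by
      rw [abs_mul]
      have hR0 : (0 : ℝ) ≤ R := Nat.cast_nonneg R
      calc |(d : ℝ)| * |δ| ≤ (2 * R) * (ε / (2 * (2 * R + 1))) :=
            mul_le_mul hdR hm.le (abs_nonneg _) (by positivity)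
        _ ≤ ε / 2 := by
            rw [mul_div_assoc', div_le_iff₀ (by positivity)]
            nlinarith
    calc |(d : ℝ) * δ + θ| ≤ |(d : ℝ) * δ| + |θ| := abs_add_le _ _
      _ < ε := by linarith
  have hin : Int.fract ((d : ℝ) / q) + (d * δ + θ) ∈ V := by
    apply hmd
    rw [add_sub_cancel_left]
    exact hsmall
  have hfr2 : Int.fract (α * D) = Int.fract ((d : ℝ) / q) + (d * δ + θ) := by
    rw [Int.fract_eq_iff]
    refine ⟨(hV1 hin).1.le, (hV1 hin).2, ⌊(d : ℝ) / q⌋ + (d * m + z), ?_⟩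
    rw [hfr]
    simp only [Int.fract]
    push_cast
    ring
  refine hC (e * x + g0 * b) D hND (by rw [hfr2]; exact hin) ⟨?_, ?_⟩
  · rw [← hm1, ← p1 (x + d) hxd]
    congr 1
    have : (D : ℤ) = e * d + g0 * A := hD.symm
    rw [this]
    push_cast
    ring
  · rw [← hm2, ← p2 (x + 2 * d) hx2]
    congr 1
    have : (D : ℤ) = e * d + g0 * A := hD.symm
    rw [this]
    push_cast
    ring



/-- the limit over all windows -/
theorem two_sidedU (α : ℝ) (hα : Irrational α) (V : Set ℝ) (hV : IsOpen V)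
    (hV1 : V ⊆ Set.Ioo 0 1) (N : ℕ) (C : ℤ → Bool)
    (hC : ∀ (x : ℤ) (d : ℕ), N ≤ d → Int.fract (α * d) ∈ V →
      ¬ (C (x + d) = C x ∧ C (x + 2 * d) = C x)) (q : ℕ) (hq : 0 < q) :
    ∃ C' : ℤ → Bool, ∀ x d : ℤ, Int.fract ((d : ℝ) / q) ∈ V →
      ¬ (C' (x + d) = C' x ∧ C' (x + 2 * d) = C' x) := by
  choose c hc using fun R : ℕ => window_colU α hα V hV hV1 N C hC q hq R
  obtain ⟨C', hC', -⟩ := limit_col c
  refine ⟨C', fun x d h1 h3 => ?_⟩
  obtain ⟨n, hn, hF⟩ := hC' {x, x + d, x + 2 * d} (x.natAbs + 2 * d.natAbs)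
  have e0 : c n x = C' x := hF x (by simp)
  have e1 : c n (x + d) = C' (x + d) := hF (x + d) (by simp)
  have e2 : c n (x + 2 * d) = C' (x + 2 * d) := hF (x + 2 * d) (by simp)
  refine hc n x d ?_ ?_ ?_ h1 ⟨?_, ?_⟩
  · rw [abs_le]; omega
  · rw [abs_le]; omega
  · rw [abs_le]; omega
  · rw [e0, e1]; exact h3.1
  · rw [e0, e2]; exact h3.2

/-- if some `k` is good on `U` then `U` does not force admissibility -/
theorem converseU (α : ℝ) (hα : Irrational α) (U : Set ℝ)
    (hk : ∃ k : ℕ, 1 ≤ k ∧ ∀ x ∈ U, 0 < x → x < 1 → 1 / 4 ≤ distInt (k * x)) :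
    ∃ f : ℕ → ℕ, (∀ d : ℕ, 1 ≤ d → Int.fract (α * d) ∈ U → f d ≤ 3) ∧
      ¬ Admissible f := by
  classical
  obtain ⟨k, hk1, hk⟩ := hk
  set β : ℝ := k * α with hβ
  have hβi : Irrational β := by
    rw [hβ]
    exact hα.natCast_mul (by omega)
  have harc : ∀ d : ℕ, 1 ≤ d → Int.fract (α * d) ∈ U →
      1 / 4 ≤ distInt (β * d) := by
    intro d hd h1
    have h00 : Int.fract (α * d) ≠ 0 := by
      rw [Int.fract_ne_zero_iff]
      rintro ⟨m, hm⟩
      exact (hα.mul_natCast (m := d) (by omega)).ne_int m hm.symm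
    have h3 := hk _ h1 (lt_of_le_of_ne (Int.fract_nonneg _) h00.symm) (Int.fract_lt_one _)
    have h4 : (k : ℝ) * Int.fract (α * d) = β * d - ((k * ⌊α * (d : ℝ)⌋ : ℤ) : ℝ) := by
      rw [hβ, Int.fract]
      push_cast
      ring
    rw [h4, distInt_sub_int_cnv] at h3
    exact h3
  refine ⟨fun d => if Int.fract (α * d) ∈ U then 3
    else ⌈1 / distInt (β * d)⌉₊ + 2, ?_, ?_⟩
  · intro d _ h1
    simp [h1]
  · intro hadm
    obtain ⟨b, hb⟩ := hadm (colCnv β)
    refine hb ?_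
    convert Set.finite_empty
    rw [Set.eq_empty_iff_forall_notMem]
    rintro d ⟨hd1, hd⟩
    have hpos : 0 < distInt (β * d) := by
      refine distInt_pos_cnv fun n => ?_
      have := (hβi.mul_natCast (m := d) (by omega)).ne_int n
      exact this
    by_cases hcd : Int.fract (α * d) ∈ U
    · simp only [hcd, if_true] at hd
      have h1 := mono_short_cnv β d 2 b hd
      have h2 := harc d hd1 hcd
      push_cast at h1
      linarith
    · simp only [hcd, if_false] at hd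
      have h0 := mono_short_cnv β d (⌈1 / distInt (β * d)⌉₊ + 1) b hd
      have h1 := Nat.le_ceil (1 / distInt (β * d))
      rw [div_le_iff₀ hpos] at h1
      push_cast at h0
      nlinarith

end Pool.Agent.WNE
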