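import Pool.Agent.WND.Per
import Pool.Agent.WNE.Str
import Pool.Agent.WNE.Two
import Pool.Agent.WNE.Cho

/-!
# WNE: open sets that contain a long arc
-/

set_option autoImplicit false

open Finset

namespace Pool.Agent.WNE

open Pool.Agent.WND

/-- open sets whose symmetrisation contains the preimage of a long arc under `x ↦ m x` -/
theorem long_arc (α : ℝ) (hα : Irrational α) (U : Set ℝ) (hU : IsOpen U) (m : ℕ) (hm : 1 ≤ m)
    (s t : ℝ) (hs : 0 ≤ s) (hst : 2 * s < t) (ht : t ≤ 1)
    (hsub : ∀ x : ℝ, 0 < x → x < 1 → s < Int.fract (m * x) → Int.fract (m * x) < t →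
      x ∈ U ∨ 1 - x ∈ U) :
    (∀ f : ℕ → ℕ, (∀ d : ℕ, 1 ≤ d → Int.fract (α * d) ∈ U → f d ≤ 3) → Admissible f) ↔
    ¬ ∃ k : ℕ, 1 ≤ k ∧ ∀ x ∈ U, 0 < x → x < 1 → 1 / 4 ≤ distInt (k * x) := by
  constructor
  · intro h hk
    obtain ⟨f, hf, hn⟩ := converseU α hα U hk
    exact hn (h f hf)
  · intro hk f hf C
    by_contra hcon
    push Not at hcon
    have hfin : ∀ b : Bool, {d : ℕ | 1 ≤ d ∧ HasAP C b d (f d)}.Finite := by
      intro b
      exact hcon b
    obtain ⟨N, hN⟩ : ∃ N : ℕ, ∀ b d, N ≤ d → 1 ≤ d → ¬ HasAP C b d (f d) := by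
      obtain ⟨N1, h1⟩ := (hfin true).bddAbove
      obtain ⟨N2, h2⟩ := (hfin false).bddAbove
      refine ⟨N1 + N2 + 1, fun b d hd hd1 hA => ?_⟩
      cases b
      · have := h2 ⟨hd1, hA⟩
        omega
      · have := h1 ⟨hd1, hA⟩
        omega
    set V : Set ℝ := U ∩ Set.Ioo 0 1 with hVd
    have hV : IsOpen V := hU.inter isOpen_Ioo
    have hV1 : V ⊆ Set.Ioo 0 1 := Set.inter_subset_right
    have hC : ∀ (x : ℤ) (d : ℕ), N + 1 ≤ d → Int.fract (α * d) ∈ V →
        ¬ (C (x + d) = C x ∧ C (x + 2 * d) = C x) := by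
      rintro x d hd h1 ⟨e1, e2⟩
      have h3 := hf d (by omega) h1.1
      refine hN (C x) d (by omega) (by omega) ⟨x, fun i hi => ?_⟩
      have hi3 : i < 3 := by omega
      interval_cases i
      · simp
      · simpa using e1
      · simpa using e2
    have hk' : ¬ ∃ k : ℕ, 1 ≤ k ∧ ∀ x ∈ V, 1 / 4 ≤ distInt (k * x) := by
      rintro ⟨k, hk1, hk2⟩
      exact hk ⟨k, hk1, fun x hx h0 h1 => hk2 x ⟨hx, h0, h1⟩⟩
    obtain ⟨K, q, a, b, hqK, ha, hab, hsa, hbt, hbad⟩ := choose_qU V hV hV1 m hm s t hs hst hk'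
    have hq0 : 0 < q := by rw [hqK]; positivity
    have hqo : Odd q := ⟨m * K, by rw [hqK]; ring⟩
    obtain ⟨C1, hC1⟩ := two_sidedU α hα V hV hV1 (N + 1) C hC q hq0
    have hq' : (q : ℝ) ≠ 0 := by exact_mod_cast hq0.ne'
    obtain ⟨g, hg1, hg2⟩ := periodic q hqo
      (fun d => Int.fract ((d : ℝ) / q) ∈ V) (by
        intro d
        have : (((d + q : ℤ) : ℝ)) / q = (d : ℝ) / q + 1 := by
          push_cast
          field_simp
        simp only [this, Int.fract_add_one]) C1 hC1
    set F : ℤ → ℤ := fun x => if g x then 1 else -1 with hF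
    have hval : ∀ x y, F x = F y → g x = g y := by
      intro x y h
      simp only [hF] at h
      cases hx : g x <;> cases hy : g y <;> simp [hx, hy] at h ⊢
    have hPm : Pm F := by
      intro x
      simp only [hF]
      cases g x <;> simp
    have hPer0 : Function.Periodic F (q : ℤ) := by
      intro x
      simp only [hF, hg1]
    have hPer : ∀ x j : ℤ, F (x + j * q) = F x := fun x j => hPer0.int_mul j x
    have hqR : (0 : ℝ) < q := by exact_mod_cast hq0
    -- avoided differences of both signs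
    have hav1 : ∀ D : ℤ, Int.fract ((D : ℝ) / q) ∈ V →
        ∀ X, ¬ (F (X + D) = F X ∧ F (X + 2 * D) = F X) := by
      rintro D hD X ⟨e1, e2⟩
      exact hg2 X D hD ⟨hval _ _ e1, hval _ _ e2⟩
    have hav2 : ∀ D : ℤ, 1 - Int.fract ((D : ℝ) / q) ∈ V →
        ∀ X, ¬ (F (X + D) = F X ∧ F (X + 2 * D) = F X) := by
      rintro D hD X ⟨e1, e2⟩
      have h0 : Int.fract ((D : ℝ) / q) ≠ 0 := by
        intro h
        rw [h] at hD
        have := (hV1 hD).2
        linarith
      have h1 : Int.fract (((-D : ℤ) : ℝ) / q) ∈ V := by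
        have e : ((-D : ℤ) : ℝ) / q = -((D : ℝ) / q) := by push_cast; ring
        rw [e, Int.fract_neg h0]
        exact hD
      apply hav1 (-D) h1 (X + 2 * D)
      rw [show X + 2 * D + -D = X + D by ring, show X + 2 * D + 2 * -D = X by ring, e1, e2]
      exact ⟨rfl, rfl⟩
    -- the multiplier
    set G : ℤ → ℤ := fun x => F (-(2 * K) * x) with hG
    have hPmG : Pm G := fun x => hPm _
    have hPerG : Per G q := by
      intro x
      simp only [hG]
      have e : -(2 * (K : ℤ)) * (x + q) = -(2 * K) * x + (-(2 * K)) * q := by ring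
      rw [e, hPer]
    have hqZ : (q : ℤ) = 2 * m * K + 1 := by rw [hqK]; push_cast; ring
    have hAv : Av G a b := by
      rintro x d h1 h2 ⟨e1, e2⟩
      have hd1 : s < (d : ℝ) / q := by
        rw [lt_div_iff₀ hqR]
        have : (a : ℝ) ≤ d := by exact_mod_cast h1
        linarith
      have hd2 : (d : ℝ) / q < t := by
        rw [div_lt_iff₀ hqR]
        have : (d : ℝ) ≤ b := by exact_mod_cast h2
        linarith
      obtain ⟨D, hD⟩ : ∃ D : ℤ, D = -(2 * K) * d := ⟨_, rfl⟩
      have hmy : Int.fract ((m : ℝ) * Int.fract ((D : ℝ) / q)) = (d : ℝ) / q := by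
        have e3 : (m : ℝ) * Int.fract ((D : ℝ) / q) =
            (d : ℝ) / q + ((-d - m * ⌊(D : ℝ) / q⌋ : ℤ) : ℝ) := by
          have hqRe : (q : ℝ) = 2 * m * K + 1 := by rw [hqK]; push_cast; ring
          have e4 : (m : ℝ) * ((D : ℝ) / q) = (d : ℝ) / q - d := by
            rw [hD]
            push_cast
            field_simp
            rw [hqRe]
            ring
          rw [Int.fract, mul_sub, e4]
          push_cast
          ring
        rw [e3, Int.fract_add_intCast, Int.fract_eq_self]
        constructor <;> linarith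
      have hy0 : 0 < Int.fract ((D : ℝ) / q) := by
        rcases (Int.fract_nonneg ((D : ℝ) / q)).eq_or_lt with h | h
        · rw [← h, mul_zero, Int.fract_zero] at hmy
          linarith
        · exact h
      have hy1 : Int.fract ((D : ℝ) / q) < 1 := Int.fract_lt_one _
      have h3 := hsub _ hy0 hy1 (by rw [hmy]; exact hd1) (by rw [hmy]; exact hd2)
      have e5 : F (-(2 * K) * x + D) = F (-(2 * K) * x) := by
        rw [hD]
        have := e1
        simp only [hG] at this
        rw [← this]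
        congr 1
        ring
      have e6 : F (-(2 * K) * x + 2 * D) = F (-(2 * K) * x) := by
        rw [hD]
        have := e2
        simp only [hG] at this
        rw [← this]
        congr 1
        ring
      rcases h3 with h3 | h3
      · exact hav1 D ⟨h3, hy0, hy1⟩ _ ⟨e5, e6⟩
      · exact hav2 D ⟨h3, by linarith, by linarith⟩ _ ⟨e5, e6⟩
    obtain ⟨k, hk1, hk2, hk3⟩ := str hPmG hPerG hAv ha hab hq0
    obtain ⟨d, hd0, hdq, hdV, n, hn⟩ := hbad k hk1 hk2
    have hqZ0 : (0 : ℤ) < q := by exact_mod_cast hq0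
    obtain ⟨c, hc⟩ : ∃ c : ℤ, c = (m * d) / q := ⟨_, rfl⟩
    obtain ⟨e, he⟩ : ∃ e : ℤ, e = (m * d) % q := ⟨_, rfl⟩
    have hmd : m * d = e + c * q := by
      rw [he, hc]
      have := Int.emod_add_mul_ediv (m * d) q
      linarith
    have he0 : 0 ≤ e := by rw [he]; exact Int.emod_nonneg _ hqZ0.ne'
    have heq : e < q := by rw [he]; exact Int.emod_lt_of_pos _ hqZ0
    have := hk3 e he0 heq (by
      rintro x ⟨e1, e2⟩
      have hfr : Int.fract ((d : ℝ) / q) = (d : ℝ) / q := by
        rw [Int.fract_eq_self]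
        exact ⟨(hV1 hdV).1.le, (hV1 hdV).2⟩
      have e7 : -(2 * (K : ℤ)) * e = d + (2 * K * c - d) * q := by
        have : -(2 * (K : ℤ)) * e = -(2 * K) * (m * d) + 2 * K * c * q := by
          rw [hmd]; ring
        rw [this]
        have e8 : -(2 * (K : ℤ)) * (m * d) = d - d * q := by rw [hqZ]; ring
        rw [e8]
        ring
      apply hav1 d (by rw [hfr]; exact hdV) (-(2 * K) * x)
      constructor
      · have e9 : G (x + e) = F (-(2 * K) * x + d) := by
          simp only [hG]
          have : -(2 * (K : ℤ)) * (x + e) = -(2 * K) * x + d + (2 * K * c - d) * q := by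
            rw [mul_add, e7]; ring
          rw [this, hPer]
        rw [← e9, e1]
      · have e9 : G (x + 2 * e) = F (-(2 * K) * x + 2 * d) := by
          simp only [hG]
          have : -(2 * (K : ℤ)) * (x + 2 * e) =
              -(2 * K) * x + 2 * d + (2 * (2 * K * c - d)) * q := by
            have e10 : -(2 * (K : ℤ)) * (x + 2 * e) =
              -(2 * K) * x + 2 * (-(2 * K) * e) := by ring
            rw [e10, e7]; ring
          rw [this, hPer]
        rw [← e9, e2]) (n - k * c)
    have e11 : k * e - (n - k * c) * q = k * (m * d) - n * q := by rw [hmd]; ring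
    rw [e11] at this
    omega

end Pool.Agent.WNE
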